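import Pool.Agent.W37.SG.Defs

/-!
# Project SG (MP_9a3597_al), part C: statements of the parts of `S_INF -> S_RANK`
-/

namespace Pool.Agent.W398.SG.C

open Pool.Agent.W37.SG

universe u v

/-! ### 1. uniserial lattices for finite `p`-groups -/

/-- a linear action of `P` on the `ℤ_p`-module `T` -/
abbrev Act (p : ℕ) [Fact p.Prime] (P T : Type) [Group P] [AddCommGroup T] [Module ℤ_[p] T] :
    Type := P →* (T →ₗ[ℤ_[p]] T)

/-- `T` is finitely generated, torsion free and non-zero -/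
def IsLat (p : ℕ) [Fact p.Prime] (T : Type) [AddCommGroup T] [Module ℤ_[p] T] : Prop :=
  Module.Finite ℤ_[p] T ∧ (∀ x : T, (p : ℤ_[p]) • x = 0 → x = 0) ∧ ∃ x : T, x ≠ 0

/-- the invariant submodules of finite index are totally ordered -/
def Uni (p : ℕ) [Fact p.Prime] {P T : Type} [Group P] [AddCommGroup T] [Module ℤ_[p] T]
    (ρ : Act p P T) : Prop :=
  ∀ L L' : Submodule ℤ_[p] T, (∀ g, ∀ x ∈ L, ρ g x ∈ L) → (∀ g, ∀ x ∈ L', ρ g x ∈ L') →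
    (∃ n : ℕ, ∀ x : T, (p : ℤ_[p]) ^ n • x ∈ L) → (∃ n : ℕ, ∀ x : T, (p : ℤ_[p]) ^ n • x ∈ L') →
    L ≤ L' ∨ L' ≤ L

/-- there is an invariant sublattice `L` of finite index with an equivariant surjection onto the
permutation module `𝔽_p[P/H]` (given by the `H`-invariant functional `lam` with `lam m = 1` and
`lam (g m) = 0` for `g ∉ H`), and `T` has rank `(p-1)|P:H|` -/
def DD (p : ℕ) [Fact p.Prime] {P T : Type} [Group P] [AddCommGroup T] [Module ℤ_[p] T]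
    (ρ : Act p P T) : Prop :=
  ∃ (H : Subgroup P) (L : Submodule ℤ_[p] T) (lam : T → ZMod p) (m : T),
    (∀ g, ∀ x ∈ L, ρ g x ∈ L) ∧ (∃ n : ℕ, ∀ x : T, (p : ℤ_[p]) ^ n • x ∈ L) ∧
    (∀ x ∈ L, ∀ y ∈ L, lam (x + y) = lam x + lam y) ∧
    (∀ h ∈ H, ∀ x ∈ L, lam (ρ h x) = lam x) ∧ m ∈ L ∧ lam m = 1 ∧
    (∀ g, g ∉ H → lam (ρ g m) = 0) ∧ Module.finrank ℤ_[p] T = (p - 1) * H.index

/-- the restriction of an action to a subgroup and an invariant submodule -/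
noncomputable def restr {p : ℕ} [Fact p.Prime] {P T : Type} [Group P] [AddCommGroup T] [Module ℤ_[p] T]
    (ρ : Act p P T) (H : Subgroup P) (T₀ : Submodule ℤ_[p] T)
    (h : ∀ g ∈ H, ∀ x ∈ T₀, ρ g x ∈ T₀) : Act p H T₀ where
  toFun g := (ρ (g : P)).restrict (h g g.2)
  map_one' := by
    ext x
    simp
  map_mul' g g' := by
    ext x
    simp

/-- Clifford decomposition: `T₀` is an `H`-invariant sublattice, `N` is `p` times the projection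
onto `T₀`, the translates of `T₀` are permuted simply transitively by `P/H`, `|P/H| = p`. -/
def Sys {p : ℕ} [Fact p.Prime] {P T : Type} [Group P] [AddCommGroup T] [Module ℤ_[p] T]
    (ρ : Act p P T) (H : Subgroup P) (T₀ : Submodule ℤ_[p] T) (N : T →ₗ[ℤ_[p]] T) : Prop :=
  H.index = p ∧ (∀ g ∈ H, ∀ x ∈ T₀, ρ g x ∈ T₀) ∧ (∀ x, N x ∈ T₀) ∧
  (∀ x ∈ T₀, N x = (p : ℤ_[p]) • x) ∧ (∀ g ∈ H, ∀ x, N (ρ g x) = ρ g (N x)) ∧
  (∀ g, g ∉ H → ∀ x ∈ T₀, N (ρ g x) = 0) ∧ (∀ x, (∀ g, N (ρ g x) = 0) → x = 0) ∧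
  (∃ g ∈ H, ∃ x ∈ T₀, ρ g x ≠ x)

/-- irreducibility -/
def S_IRR : Prop :=
  ∀ (p : ℕ) [Fact p.Prime] (P T : Type) [Group P] [AddCommGroup T] [Module ℤ_[p] T]
    (ρ : Act p P T), IsLat p T → Uni p ρ → ∀ f : T →ₗ[ℤ_[p]] T,
    (∀ g x, f x = 0 → f (ρ g x) = 0) → (∀ x, f x = 0 → x = 0) ∨ ∀ x, f x = 0

/-- the cyclic case, rank: `T = ℤ_p[g] v`, and `1, g, …, g^((p-1)q-1)` are independent -/
def S_CYC1 : Prop :=
  ∀ (p : ℕ) [Fact p.Prime] (P T : Type) [Group P] [Finite P] [AddCommGroup T]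
    [Module ℤ_[p] T] (ρ : Act p P T), IsLat p T → Uni p ρ → Function.Injective ρ →
    ∀ (g : P) (e : ℕ), (∀ x, x ∈ Subgroup.zpowers g) → orderOf g = p ^ (e + 1) →
    (∑ i ∈ Finset.range p, ρ g ^ (i * p ^ e) = 0) ∧
    ∃ v : T, (∀ x : T, ∃ f : Polynomial ℤ_[p], x = Polynomial.aeval (ρ g) f v) ∧
      ∀ f : Polynomial ℤ_[p], f.natDegree < (p - 1) * p ^ e → Polynomial.aeval (ρ g) f v = 0 →
        f = 0

/-- the cyclic case -/
def S_CYC2 : Prop :=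
  ∀ (p : ℕ) [Fact p.Prime] (P T : Type) [Group P] [Finite P] [AddCommGroup T]
    [Module ℤ_[p] T] (ρ : Act p P T), IsLat p T → Uni p ρ → Function.Injective ρ →
    IsPGroup p P → IsCyclic P → Nontrivial P → DD p ρ

/-- normal elementary abelian subgroups of rank two -/
def S_EE : Prop :=
  ∀ (p : ℕ) [Fact p.Prime], p ≠ 2 → ∀ (P : Type) [Group P] [Finite P], IsPGroup p P →
    ¬ IsCyclic P → ∃ E : Subgroup P, E.Normal ∧ Nat.card E = p ^ 2 ∧ ∀ x ∈ E, x ^ p = 1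

/-- the elements `z`, `w` -/
def S_ZW : Prop :=
  ∀ (p : ℕ) [Fact p.Prime] (P : Type) [Group P] [Finite P], IsPGroup p P →
    (∃ E : Subgroup P, E.Normal ∧ Nat.card E = p ^ 2 ∧ ∀ x ∈ E, x ^ p = 1) →
    ∃ z w : P, (∀ g, g * z = z * g) ∧ orderOf z = p ∧ w ^ p = 1 ∧ w ∉ Subgroup.zpowers z ∧
      ∀ g, ∃ i : ℕ, g⁻¹ * w * g = w * z ^ i

/-- construction of the Clifford decomposition -/
def S_SYS : Prop :=
  ∀ (p : ℕ) [Fact p.Prime] (P T : Type) [Group P] [Finite P] [AddCommGroup T]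
    [Module ℤ_[p] T] (ρ : Act p P T), IsLat p T → Uni p ρ → Function.Injective ρ →
    ∀ z w : P, (∀ g, g * z = z * g) → orderOf z = p → w ^ p = 1 → w ∉ Subgroup.zpowers z →
    (∀ g, ∃ i : ℕ, g⁻¹ * w * g = w * z ^ i) →
    ∃ (H : Subgroup P) (T₀ : Submodule ℤ_[p] T) (N : T →ₗ[ℤ_[p]] T), Sys ρ H T₀ N

/-- uniseriality of the constituent -/
def S_UNI0 : Prop :=
  ∀ (p : ℕ) [Fact p.Prime] (P T : Type) [Group P] [Finite P] [AddCommGroup T]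
    [Module ℤ_[p] T] (ρ : Act p P T), IsLat p T → Uni p ρ →
    ∀ (H : Subgroup P) (T₀ : Submodule ℤ_[p] T) (N : T →ₗ[ℤ_[p]] T), Sys ρ H T₀ N →
    ∀ h : ∀ g ∈ H, ∀ x ∈ T₀, ρ g x ∈ T₀, IsLat p T₀ ∧ Uni p (restr ρ H T₀ h)

/-- the rank -/
def S_RK0 : Prop :=
  ∀ (p : ℕ) [Fact p.Prime] (P T : Type) [Group P] [Finite P] [AddCommGroup T]
    [Module ℤ_[p] T] (ρ : Act p P T), IsLat p T →
    ∀ (H : Subgroup P) (T₀ : Submodule ℤ_[p] T) (N : T →ₗ[ℤ_[p]] T), Sys ρ H T₀ N →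
    Module.finrank ℤ_[p] T = p * Module.finrank ℤ_[p] T₀

/-- induction step -/
def S_DD0 : Prop :=
  ∀ (p : ℕ) [Fact p.Prime] (P T : Type) [Group P] [Finite P] [AddCommGroup T]
    [Module ℤ_[p] T] (ρ : Act p P T), IsLat p T →
    ∀ (H : Subgroup P) (T₀ : Submodule ℤ_[p] T) (N : T →ₗ[ℤ_[p]] T), Sys ρ H T₀ N →
    ∀ h : ∀ g ∈ H, ∀ x ∈ T₀, ρ g x ∈ T₀, DD p (restr ρ H T₀ h) → DD p ρ

/-- the induction, for arbitrary non-trivial actions -/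
def S_T1 : Prop :=
  ∀ (p : ℕ) [Fact p.Prime], p ≠ 2 → ∀ (P T : Type) [Group P] [Finite P] [AddCommGroup T]
    [Module ℤ_[p] T] (ρ : Act p P T), IsPGroup p P → IsLat p T → Uni p ρ →
    (∃ g x, ρ g x ≠ x) → DD p ρ

/-! ### 2. permutation modules and tree coordinates -/

/-- the permutation module `𝔽_p[P/H]` is uniserial -/
def PUni (p : ℕ) {P : Type} [Group P] (H : Subgroup P) : Prop :=
  ∀ U U' : Submodule (ZMod p) (P ⧸ H → ZMod p),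
    (∀ g : P, ∀ f ∈ U, (fun c : P ⧸ H => f (g • c)) ∈ U) →
    (∀ g : P, ∀ f ∈ U', (fun c : P ⧸ H => f (g • c)) ∈ U') → U ≤ U' ∨ U' ≤ U

/-- uniseriality of the permutation module -/
def S_PERM : Prop :=
  ∀ (p : ℕ) [Fact p.Prime] (P T : Type) [Group P] [Finite P] [AddCommGroup T]
    [Module ℤ_[p] T] (ρ : Act p P T), Uni p ρ →
    ∀ (H : Subgroup P) (L : Submodule ℤ_[p] T) (lam : T → ZMod p) (m : T),
    (∀ g, ∀ x ∈ L, ρ g x ∈ L) → (∃ n : ℕ, ∀ x : T, (p : ℤ_[p]) ^ n • x ∈ L) →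
    (∀ x ∈ L, ∀ y ∈ L, lam (x + y) = lam x + lam y) →
    (∀ h ∈ H, ∀ x ∈ L, lam (ρ h x) = lam x) → m ∈ L → lam m = 1 →
    (∀ g, g ∉ H → lam (ρ g m) = 0) → PUni p H

/-- `e` gives triangular coordinates on `P/H` -/
def IsCoord (p k : ℕ) {P : Type} [Group P] (H : Subgroup P)
    (e : P ⧸ H ≃ (Fin k → ZMod p)) : Prop :=
  ∀ (g : P) (i : Fin k) (x y : P ⧸ H), (∀ j < i, e x j = e y j) →
    e (g • x) i - e x i = e (g • y) i - e y i

/-- Kaloujnine coordinates -/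
def S_COORD : Prop :=
  ∀ (p : ℕ) [Fact p.Prime] (P : Type) [Group P] [Finite P], IsPGroup p P → ∀ H : Subgroup P,
    ∃ k : ℕ, H.index = p ^ k ∧ ∃ e : P ⧸ H ≃ (Fin k → ZMod p), IsCoord p k H e

/-- the tree group defined by coordinates -/
def S_QQ : Prop :=
  ∀ (p : ℕ) [Fact p.Prime] (P : Type) [Group P] (H : Subgroup P) (k : ℕ)
    (e : P ⧸ H ≃ (Fin k → ZMod p)), IsCoord p k H e →
    ∃ Φ : P →* Equiv.Perm (ℕ → ZMod p), (∀ g, IsTri p (Φ g) ∧ IsLvl p k (Φ g)) ∧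
      ∀ (g : P) (x : ℕ → ZMod p) (i : Fin k),
        Φ g x i = e (g • e.symm (fun j : Fin k => x j)) i

/-- the sums of the labels do not vanish -/
def S_TAU : Prop :=
  ∀ (p : ℕ) [Fact p.Prime] (P : Type) [Group P] (H : Subgroup P) (k : ℕ)
    (e : P ⧸ H ≃ (Fin k → ZMod p)), IsCoord p k H e → PUni p H →
    ∀ Φ : P →* Equiv.Perm (ℕ → ZMod p),
    (∀ (g : P) (x : ℕ → ZMod p) (i : Fin k),
        Φ g x i = e (g • e.symm (fun j : Fin k => x j)) i) →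
    ∀ v < k, ∃ g, tau p v (Φ g) ≠ 0

/-- Interface 3, corrected (`P` non-trivial) -/
def S_TREE1 : Prop :=
  ∀ (p : ℕ) [Fact p.Prime], p ≠ 2 → ∀ (d : ℕ) (P : Type) [Group P] [Finite P], IsPGroup p P →
    Nontrivial P → 1 ≤ d →
    ∀ ρ : P →* ((Fin d → ℤ_[p]) ≃ₗ[ℤ_[p]] (Fin d → ℤ_[p])), Function.Injective ρ →
    UniserialRep p d ρ →
    ∃ k : ℕ, d = (p - 1) * p ^ k ∧ ∃ Q : Subgroup (Equiv.Perm (ℕ → ZMod p)),
      (∀ g ∈ Q, IsTri p g ∧ IsLvl p k g) ∧ (∀ v < k, ∃ g ∈ Q, tau p v g ≠ 0) ∧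
      ∃ φ : P →* Q, Function.Surjective φ

/-! ### 3. the rank -/

/-- the coclass does not increase in quotients -/
def S_QC : Prop :=
  ∀ (p : ℕ) [Fact p.Prime] (s : ℕ) (G : Type u) (G' : Type v) [Group G] [Group G']
    (φ : G →* G'), IsPGroup p G → Function.Surjective φ → CoclassLE p s G → CoclassLE p s G'

/-- comparison of the two definitions of the coclass -/
def S_SUBC : Prop :=
  ∀ (p s : ℕ) (G : Type u) [Group G] (Q : Subgroup G), SubCoclassLE p s Q ↔ CoclassLE p s Q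

/-- the rank of a uniserial lattice for the trivial group -/
def S_TRIV : Prop :=
  ∀ (p : ℕ) [Fact p.Prime] (d : ℕ) (P : Type) [Group P], Subsingleton P →
    ∀ ρ : P →* ((Fin d → ℤ_[p]) ≃ₗ[ℤ_[p]] (Fin d → ℤ_[p])), UniserialRep p d ρ → d ≤ 1

/-! ### 4. compactness -/

/-- the group of triangular permutations -/
def S_TRI : Prop :=
  ∀ p : ℕ, ∃ Tr : Subgroup (Equiv.Perm (ℕ → ZMod p)), (∀ g, g ∈ Tr ↔ IsTri p g) ∧
    ∀ k : ℕ, ∃ t : Tr →* Tr, ∀ g : Tr, IsTrunc p k g (t g)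

/-- triangular groups of level `k` are finite `p`-groups -/
def S_PG : Prop :=
  ∀ (p : ℕ) [Fact p.Prime] (k : ℕ),
    {g : Equiv.Perm (ℕ → ZMod p) | IsTri p g ∧ IsLvl p k g}.Finite ∧
    ∀ g : Equiv.Perm (ℕ → ZMod p), IsTri p g → IsLvl p k g → g ^ p ^ k = 1

/-- limits of compatible sequences -/
def S_LIM : Prop :=
  ∀ (p : ℕ) (h : ℕ → Equiv.Perm (ℕ → ZMod p)), (∀ k, IsTri p (h k) ∧ IsLvl p k (h k)) →
    (∀ k, IsTrunc p k (h (k + 1)) (h k)) → ∃ g, IsTri p g ∧ ∀ k, IsTrunc p k g (h k)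

end Pool.Agent.W398.SG.C
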