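import Pool.Agent.W398.SG.Rank
import Pool.Agent.W924.SG.IRR
import Pool.Agent.W681.SG.CYC2
import Pool.Agent.W462.SG.EE
import Pool.Agent.W933.SG.ZW
import Pool.Agent.W395.SG.Sys
import Pool.Agent.W577.SG.Uni0
import Pool.Agent.W554.SG.Rk0
import Pool.Agent.W828.SG.DD0
import Pool.Agent.W85.SG.T1
import Pool.Agent.W637.SG.PERM
import Pool.Agent.W29.SG.Coord
import Pool.Agent.W154.SG.QQ
import Pool.Agent.W737.SG.Tau
import Pool.Agent.W649.SG.QC
import Pool.Agent.W366.SG.Triv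
import Pool.Agent.W389.SG.Tri
import Pool.Agent.W557.SG.PG
import Pool.Agent.W764.SG.Lim
import Pool.Agent.W885.SG.Comp

/-!
# Project SG (MP_9a3597_al): `S_INF -> S_RANK` (from the cyclic case `S_CYC1`)
-/

namespace Pool.Agent.W398.SG.PartC

open Pool.Agent.W37.SG Pool.Agent.W398.SG.C

theorem t1 (h : S_CYC1) : S_T1 :=
  Pool.Agent.W85.SG.T1.main (Pool.Agent.W681.SG.main h) Pool.Agent.W462.SG.EE.main
    Pool.Agent.W933.SG.main (Pool.Agent.W395.SG.Sys.main Pool.Agent.W924.SG.IRR.main)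
    Pool.Agent.W577.SG.Uni0.main (Pool.Agent.W828.SG.dd0 Pool.Agent.W554.SG.Rk0.main)

theorem tree (h : S_CYC1) : S_TREE1 :=
  Pool.Agent.W398.SG.Rank.tree1 (t1 h) Pool.Agent.W637.SG.PERM.main
    Pool.Agent.W29.SG.Coord.main Pool.Agent.W154.SG.QQ.main Pool.Agent.W737.SG.Tau.main

theorem fin : S_INF → S_FIN :=
  Pool.Agent.W885.SG.main Pool.Agent.W389.SG.Tri.main Pool.Agent.W557.SG.PG.main
    Pool.Agent.W764.SG.Lim.main Pool.Agent.W649.SG.QC.main_qc Pool.Agent.W649.SG.QC.main_subc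

/-- `S_INF -> S_RANK`, from the cyclic case -/
theorem rank (h : S_CYC1) (hInf : S_INF) : S_RANK :=
  Pool.Agent.W398.SG.Rank.rank (fin hInf) (tree h) Pool.Agent.W649.SG.QC.main_qc
    Pool.Agent.W649.SG.QC.main_subc Pool.Agent.W366.SG.Triv.main

end Pool.Agent.W398.SG.PartC
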