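import Pool.Agent.W398.SG.AB
import Pool.Agent.W398.SG.PartC
import Pool.Agent.W160.SG.Cyc1

/-!
# Project SG (MP_9a3597_al): `S_INF -> S_MAIN`
-/

namespace Pool.Agent.W398.SG.Final

open Pool.Agent.W37.SG Pool.Agent.W398.SG.C

universe u

theorem rankOfInf : S_INF → S_RANK :=
  Pool.Agent.W398.SG.PartC.rank (Pool.Agent.W160.SG.Cyc1.main Pool.Agent.W924.SG.IRR.main)

theorem mainOfInf (h : S_INF) : S_MAIN.{u} :=
  Pool.Agent.W398.SG.AB.ab (rankOfInf h)

end Pool.Agent.W398.SG.Final
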