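import Pool.Agent.W37.SG.Defs

/-!
# Project SG (MP_9a3597_al), part AB: statements of the parts of `S_RANK -> S_MAIN`
-/

namespace Pool.Agent.W398.SG

open Pool.Agent.W37.SG
open scoped Matrix commutatorElement

universe u v

/-- the lattice `ℤ_p ^ d` -/
abbrev Lat (p d : ℕ) [Fact p.Prime] : Type := Fin d → ℤ_[p]

/-- `d × d` matrices over `ℤ_p` -/
abbrev Mat (p d : ℕ) [Fact p.Prime] : Type := Matrix (Fin d) (Fin d) ℤ_[p]

/-! ### A. the closed lower central series -/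

/-- basic properties of the closed lower central series -/
def S_GAM : Prop :=
  ∀ (R : Type u) [Group R] [TopologicalSpace R] [IsTopologicalGroup R],
    (∀ i, gammaBar R (i + 1) ≤ gammaBar R i) ∧
    (∀ i, ∀ x ∈ gammaBar R i, ∀ r : R, ⁅x, r⁆ ∈ gammaBar R (i + 1)) ∧
    (∀ i, ∀ L : Subgroup R, IsClosed (L : Set R) → (∀ x ∈ gammaBar R i, ∀ r : R, ⁅x, r⁆ ∈ L) →
      gammaBar R (i + 1) ≤ L)

/-- pro-`p` groups are residually nilpotent -/
def S_NIL : Prop :=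
  ∀ (p : ℕ) [Fact p.Prime] (R : Type u) [Group R] [TopologicalSpace R] [IsTopologicalGroup R],
    IsProP p R → ∀ U : Subgroup R, U.Normal → IsOpen (U : Set R) → ∃ i, gammaBar R i ≤ U

/-- in an infinite pro-`p` group of finite coclass the closed lower central series consists of
open subgroups and its factors have order `p` from some point on -/
def S_FAC : Prop :=
  ∀ (p : ℕ) [Fact p.Prime] (R : Type u) [Group R] [TopologicalSpace R] [IsTopologicalGroup R],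
    Infinite R → IsProP p R → FiniteCoclass p R →
    (∀ i, IsOpen (gammaBar R i : Set R)) ∧
    ∃ i₀, ∀ i, i₀ ≤ i → ∀ H : Subgroup R, gammaBar R (i + 1) ≤ H → H ≤ gammaBar R i →
      H = gammaBar R (i + 1) ∨ H = gammaBar R i

/-- small open normal subgroups are comparable -/
def S_CHAIN : Prop :=
  ∀ (p : ℕ) [Fact p.Prime] (R : Type u) [Group R] [TopologicalSpace R] [IsTopologicalGroup R],
    Infinite R → IsProP p R → FiniteCoclass p R →
    ∃ U : Subgroup R, IsOpen (U : Set R) ∧ ∀ L L' : Subgroup R, L.Normal → L'.Normal →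
      IsOpen (L : Set R) → IsOpen (L' : Set R) → L ≤ U → L' ≤ U → L ≤ L' ∨ L' ≤ L

/-! ### B. the conjugation representation -/

/-- `ρ` describes the conjugation action of `R` on `T` (identified with `ℤ_p ^ d` by `e`) -/
def IsConj (p : ℕ) [Fact p.Prime] {d : ℕ} {R : Type u} [Group R] [TopologicalSpace R]
    (T : Subgroup R) (e : T ≃ₜ* Multiplicative (Fin d → ℤ_[p])) (ρ : R →* Mat p d) : Prop :=
  ∀ (r : R) (t t' : T), (t' : R) = r * t * r⁻¹ →
    Multiplicative.toAdd (e t') = ρ r *ᵥ Multiplicative.toAdd (e t)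

/-- the conjugation action is given by matrices -/
def S_CONJ : Prop :=
  ∀ (p : ℕ) [Fact p.Prime] (d : ℕ) (R : Type u) [Group R] [TopologicalSpace R]
    [IsTopologicalGroup R] (T : Subgroup R) [T.Normal]
    (e : T ≃ₜ* Multiplicative (Fin d → ℤ_[p])), ∃ ρ : R →* Mat p d, IsConj p T e ρ

/-- uniseriality of the conjugation action -/
def S_UNI : Prop :=
  ∀ (p : ℕ) [Fact p.Prime] (d : ℕ) (R : Type u) [Group R] [TopologicalSpace R]
    [IsTopologicalGroup R] (T : Subgroup R) [T.Normal]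
    (e : T ≃ₜ* Multiplicative (Fin d → ℤ_[p])) (ρ : R →* Mat p d), 1 ≤ d → IsProP p R →
    FiniteCoclass p R → IsOpen (T : Set R) → IsConj p T e ρ →
    ∀ L L' : Submodule ℤ_[p] (Fin d → ℤ_[p]),
      (∀ r : R, ∀ x ∈ L, ρ r *ᵥ x ∈ L) → (∀ r : R, ∀ x ∈ L', ρ r *ᵥ x ∈ L') →
      (∃ n : ℕ, ∀ x : Fin d → ℤ_[p], (p : ℤ_[p]) ^ n • x ∈ L) →
      (∃ n : ℕ, ∀ x : Fin d → ℤ_[p], (p : ℤ_[p]) ^ n • x ∈ L') → L ≤ L' ∨ L' ≤ L

/-! ### C. extensions -/

/-- `f` is a 2-cocycle of `G` with values in `ℤ_p ^ d` with the action `ρ` -/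
def IsCoc {p : ℕ} [Fact p.Prime] {d : ℕ} {G : Type} [Group G] (ρ : G →* Mat p d)
    (f : G → G → Lat p d) : Prop :=
  ∀ x y z : G, f x y + f (x * y) z = ρ x *ᵥ f y z + f x (y * z)

/-- `R` is (as a topological group) the extension of the finite group `G` by `ℤ_p ^ d` with
action `ρ` and cocycle `f`: the element of `R` with coordinates `v`, `g` is `b v g`. -/
def Real {p : ℕ} [Fact p.Prime] {d : ℕ} {G : Type} [Group G] (R : Type u) [Group R]
    [TopologicalSpace R] (ρ : G →* Mat p d) (f : G → G → Lat p d) : Prop :=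
  ∃ (a : R → Lat p d) (π : R → G) (b : Lat p d → G → R), Continuous a ∧
    (∀ g, IsOpen (π ⁻¹' {g})) ∧ (∀ g, Continuous (fun v => b v g)) ∧
    (∀ r, b (a r) (π r) = r) ∧ (∀ v g, a (b v g) = v) ∧ (∀ v g, π (b v g) = g) ∧
    (∀ r s, π (r * s) = π r * π s) ∧
    ∀ r s, a (r * s) = a r + ρ (π r) *ᵥ a s + f (π r) (π s)

/-- description of `R` by a representation and a cocycle -/
def S_EXT : Prop :=
  ∀ (p : ℕ) [Fact p.Prime] (d : ℕ) (R : Type u) [Group R] [TopologicalSpace R]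
    [IsTopologicalGroup R] (T : Subgroup R) [T.Normal]
    (e : T ≃ₜ* Multiplicative (Fin d → ℤ_[p])) (ρR : R →* Mat p d), IsOpen (T : Set R) →
    Finite (R ⧸ T) → (∀ r : R, (∀ t ∈ T, r * t = t * r) → r ∈ T) → IsConj p T e ρR →
    ∃ (P : Type) (_ : Group P) (_ : Finite P) (φ : P ≃* R ⧸ T) (ρ : P →* Mat p d)
      (f : P → P → Lat p d), IsCoc ρ f ∧ Real R ρ f ∧ Function.Injective ρ ∧
      ∀ (r : R) (g : P), φ g = (r : R ⧸ T) → ρ g = ρR r

/-- Maranda's theorem and the vanishing of small cocycles -/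
def S_MAR : Prop :=
  ∀ (p : ℕ) [Fact p.Prime] (d a : ℕ) (G : Type) [Group G] [Finite G], Nat.card G = p ^ a →
    ∀ (ρ ρ' : G →* Mat p d) (f f' : G → G → Lat p d), IsCoc ρ f → IsCoc ρ' f' →
    (∀ g i j, (p : ℤ_[p]) ^ (2 * a + 1) ∣ ρ g i j - ρ' g i j) →
    (∀ g h i, (p : ℤ_[p]) ^ (2 * a + 1) ∣ f g h i - f' g h i) →
    ∃ (A B : Mat p d) (c : G → Lat p d), A * B = 1 ∧ B * A = 1 ∧ (∀ g, A * ρ g = ρ' g * A) ∧
      ∀ x y, A *ᵥ f x y + c (x * y) = c x + ρ' x *ᵥ c y + f' x y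

/-- equivalent data give isomorphic groups -/
def S_ISO : Prop :=
  ∀ (p : ℕ) [Fact p.Prime] (d : ℕ) (G : Type) [Group G] (R R' : Type u) [Group R]
    [TopologicalSpace R] [Group R'] [TopologicalSpace R'] (ρ ρ' : G →* Mat p d)
    (f f' : G → G → Lat p d), Real R ρ f → Real R' ρ' f' →
    ∀ (A B : Mat p d) (c : G → Lat p d), A * B = 1 → B * A = 1 → (∀ g, A * ρ g = ρ' g * A) →
    (∀ x y, A *ᵥ f x y + c (x * y) = c x + ρ' x *ᵥ c y + f' x y) → Nonempty (R ≃ₜ* R')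

/-- the order of a finite `p`-subgroup of `GL_d(ℤ_p)`, `p` odd -/
def S_TF : Prop :=
  ∀ (p : ℕ) [Fact p.Prime], p ≠ 2 → ∀ (d : ℕ) (G : Type) [Group G] [Finite G], IsPGroup p G →
    ∀ ρ : G →* Mat p d, Function.Injective ρ → ∃ a : ℕ, a ≤ d ^ 2 ∧ Nat.card G = p ^ a

/-- rank, order, group table, action and cocycle -/
structure Dat (p : ℕ) [Fact p.Prime] where
  d : ℕ
  n : ℕ
  G : Group (Fin n)
  rho : Fin n → Mat p d
  f : Fin n → Fin n → Lat p d

/-- pigeon hole principle for the data -/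
def S_CODE : Prop :=
  ∀ (p : ℕ) [Fact p.Prime] (D B m : ℕ), ∃ N : ℕ, ∀ X : Fin (N + 1) → Dat p,
    (∀ i, (X i).d ≤ D ∧ (X i).n ≤ B) →
    ∃ i j, i ≠ j ∧ ∃ (d n : ℕ) (G : Group (Fin n)) (ρ ρ' : Fin n → Mat p d)
      (f f' : Fin n → Fin n → Lat p d), X i = ⟨d, n, G, ρ, f⟩ ∧ X j = ⟨d, n, G, ρ', f'⟩ ∧
      (∀ g a b, (p : ℤ_[p]) ^ m ∣ ρ g a b - ρ' g a b) ∧
      (∀ g h a, (p : ℤ_[p]) ^ m ∣ f g h a - f' g h a)

/-- the coclass is invariant under isomorphism -/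
def S_COC : Prop :=
  ∀ (p : ℕ) [Fact p.Prime] (s : ℕ) (G : Type u) (H : Type v) [Group G] [Group H],
    G ≃* H → CoclassEq p s G → CoclassLE p s H

end Pool.Agent.W398.SG
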