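import Pool.Agent.W398.SG.Asm
import Pool.Agent.W35.SG.Gam
import Pool.Agent.W800.SG.Fac
import Pool.Agent.W214.SG.Chain
import Pool.Agent.W409.SG.Conj
import Pool.Agent.W800.SG.Uni
import Pool.Agent.W135.SG.Ext
import Pool.Agent.W455.SG.MAR
import Pool.Agent.W148.SG.Iso
import Pool.Agent.W692.SG.TF
import Pool.Agent.W753.SG.Code

/-!
# Project SG (MP_9a3597_al): `S_RANK -> S_MAIN`
-/

namespace Pool.Agent.W398.SG.AB

open Pool.Agent.W37.SG Pool.Agent.W398.SG

universe u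

/-- part AB of project SG -/
theorem ab : S_RANK → S_MAIN.{u} :=
  Asm.main Pool.Agent.W409.SG.Conj.main
    (Pool.Agent.W800.SG.Uni.main (Pool.Agent.W214.SG.main Pool.Agent.W35.SG.Gam.gam
      Pool.Agent.W35.SG.Gam.nil
      (Pool.Agent.W800.SG.Fac.main Pool.Agent.W35.SG.Gam.gam Pool.Agent.W35.SG.Gam.nil)))
    Pool.Agent.W135.SG.Ext.main Pool.Agent.W455.SG.MAR.main Pool.Agent.W148.SG.main
    Pool.Agent.W692.SG.TF.main Pool.Agent.W753.SG.Code.main

end Pool.Agent.W398.SG.AB
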