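import Pool.Agent.W398.SG.Stm

/-!
# Project SG (MP_9a3597_al), part AB: assembly of `S_RANK -> S_MAIN`
-/

namespace Pool.Agent.W398.SG.Asm

open Pool.Agent.W37.SG Pool.Agent.W398.SG
open scoped Matrix

universe u v

/-- the coclass is invariant under isomorphism -/
theorem s_coc : S_COC.{u, v} := by
  intro p _ s G H _ _ φ hG
  obtain ⟨c, hc, hcard⟩ := hG
  have key : ∀ n, (⊤ : Subgroup G).lowerCentralSeries n = ⊥ ↔
      (⊤ : Subgroup H).lowerCentralSeries n = ⊥ := by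
    intro n
    have h1 : ((⊤ : Subgroup G).lowerCentralSeries n).map φ.toMonoidHom =
        (⊤ : Subgroup H).lowerCentralSeries n := by
      rw [Subgroup.map_lowerCentralSeries]
      congr 1
      exact Subgroup.map_top_of_surjective _ φ.surjective
    rw [← h1]
    constructor
    · intro h; rw [h, Subgroup.map_bot]
    · intro h
      rw [Subgroup.map_eq_bot_iff_of_injective _ φ.injective] at h
      exact h
  refine ⟨c, ?_, ?_, ?_⟩
  · constructor
    · exact (key c).1 hc.1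
    · intro n hn
      exact hc.2 ((key n).2 hn)
  · rw [← Nat.card_congr φ.toEquiv, hcard]
    exact pow_ne_zero _ (Fact.out : p.Prime).ne_zero
  · rw [← Nat.card_congr φ.toEquiv, hcard]

section
variable {p : ℕ} [Fact p.Prime] {d : ℕ} {G : Type} [Group G]

/-- matrices to linear equivalences -/
noncomputable def toE (ρ : G →* Mat p d) :
    G →* ((Fin d → ℤ_[p]) ≃ₗ[ℤ_[p]] (Fin d → ℤ_[p])) :=
  ((LinearMap.GeneralLinearGroup.generalLinearEquiv ℤ_[p] (Fin d → ℤ_[p])).toMonoidHom.comp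
    (Matrix.GeneralLinearGroup.toLin (n := Fin d) (R := ℤ_[p])).toMonoidHom).comp ρ.toHomUnits

lemma toE_apply (ρ : G →* Mat p d) (g : G) (v : Fin d → ℤ_[p]) : toE ρ g v = ρ g *ᵥ v := by
  rfl

lemma toE_inj (ρ : G →* Mat p d) (h : Function.Injective ρ) : Function.Injective (toE ρ) := by
  intro g k hgk
  apply h
  apply Matrix.mulVec_injective
  funext v
  rw [← toE_apply, ← toE_apply, hgk]

/-- `R` is realised by the data -/
def Good (R : Type u) [Group R] [TopologicalSpace R] (rho : G → Mat p d)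
    (f : G → G → Lat p d) : Prop :=
  ∃ ρ : G →* Mat p d, (∀ g, ρ g = rho g) ∧ IsCoc ρ f ∧ Real R ρ f

lemma Good.transfer {R : Type u} [Group R] [TopologicalSpace R] {H : Type} [Group H]
    (ψ : H ≃* G) (rho : G → Mat p d) (f : G → G → Lat p d) (h : Good R rho f) :
    Good R (fun x => rho (ψ x)) (fun x y => f (ψ x) (ψ y)) := by
  obtain ⟨ρ, h1, h2, a, π, b, h3, h4, h5, h6, h7, h8, h9, h10⟩ := h
  refine ⟨ρ.comp ψ.toMonoidHom, fun g => h1 _, ?_, a, fun r => ψ.symm (π r),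
    fun v g => b v (ψ g), h3, ?_, fun g => h5 _, ?_, fun v g => h7 _ _, ?_, ?_, ?_⟩
  · intro x y z
    have := h2 (ψ x) (ψ y) (ψ z)
    simpa [map_mul] using this
  · intro g
    have : (fun r => ψ.symm (π r)) ⁻¹' {g} = π ⁻¹' {ψ g} := by
      ext r
      simp [MulEquiv.symm_apply_eq]
    rw [this]
    exact h4 _
  · intro r
    simp [h6]
  · intro v g
    simp [h8]
  · intro r s
    simp [h9]
  · intro r s
    simp [h10]

lemma final (hMar : S_MAR) (hIso : S_ISO.{u}) [Finite G] (m a : ℕ) (ha : 2 * a + 1 ≤ m)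
    (hc : Nat.card G = p ^ a) (R R' : Type u) [Group R] [TopologicalSpace R] [Group R']
    [TopologicalSpace R'] (ρ ρ' : G → Mat p d) (f f' : G → G → Lat p d)
    (h : Good R ρ f) (h' : Good R' ρ' f')
    (h1 : ∀ g i j, (p : ℤ_[p]) ^ m ∣ ρ g i j - ρ' g i j)
    (h2 : ∀ g h i, (p : ℤ_[p]) ^ m ∣ f g h i - f' g h i) : Nonempty (R ≃ₜ* R') := by
  obtain ⟨ρ₁, e1, c1, r1⟩ := h
  obtain ⟨ρ₂, e2, c2, r2⟩ := h'
  obtain ⟨A, B, c, hAB, hBA, h3, h4⟩ := hMar p d a G hc ρ₁ ρ₂ f f' c1 c2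
    (fun g i j => by rw [e1, e2]; exact (pow_dvd_pow _ ha).trans (h1 g i j))
    (fun g h i => (pow_dvd_pow _ ha).trans (h2 g h i))
  exact hIso p d G R R' ρ₁ ρ₂ f f' r1 r2 A B c hAB hBA h3 h4
end

/-- `S_RANK → S_MAIN` -/
theorem main (hConj : S_CONJ.{u}) (hUni : S_UNI.{u}) (hExt : S_EXT.{u}) (hMar : S_MAR)
    (hIso : S_ISO.{u}) (hTF : S_TF) (hCode : S_CODE) (hRank : S_RANK) : S_MAIN.{u} := by
  intro p _ hp2 s _
  obtain ⟨D, hD⟩ := hRank p hp2 s
  obtain ⟨N, hN⟩ := hCode p D (p ^ (D ^ 2)) (2 * D ^ 2 + 1)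
  refine ⟨N, ?_⟩
  intro R _ _ _ T _ hS hF hC
  have key : ∀ i, ∃ X : Dat p, (X.d ≤ D ∧ X.n ≤ p ^ (D ^ 2)) ∧
      (∃ a, a ≤ D ^ 2 ∧ X.n = p ^ a) ∧ @Good p _ X.d (Fin X.n) X.G (R i) _ _ X.rho X.f := by
    intro i
    obtain ⟨hpro, hcl, -, ⟨d, hd, ⟨e⟩⟩, ⟨k, hk⟩, hfaith⟩ := hS i
    have hk0 : (T i).index ≠ 0 := by
      rw [hk]
      exact pow_ne_zero _ (Fact.out : p.Prime).ne_zero
    have : (T i).FiniteIndex := ⟨hk0⟩
    have hopen : IsOpen (T i : Set (R i)) := Subgroup.isOpen_of_isClosed_of_finiteIndex _ hcl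
    obtain ⟨ρR, hρR⟩ := hConj p d (R i) (T i) e
    have hfin : Finite (R i ⧸ T i) := inferInstance
    obtain ⟨P, _, _, φ, ρ, f, hcoc, hreal, hinj, hcomp⟩ :=
      hExt p d (R i) (T i) e ρR hopen hfin hfaith hρR
    have huni := hUni p d (R i) (T i) e ρR hd hpro (hF i) hopen hρR
    have hcardP : Nat.card P = p ^ k := by
      rw [Nat.card_congr φ.toEquiv, ← hk]
      rfl
    have hPG : IsPGroup p P := IsPGroup.of_card hcardP
    have hcc : CoclassLE p s P := s_coc p s (R i ⧸ T i) P φ.symm (hC i)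
    have hdD : d ≤ D := by
      refine hD d P hPG hcc (toE ρ) (toE_inj ρ hinj) ?_
      intro L L' hL hL' h1 h2
      refine huni L L' ?_ ?_ h1 h2
      · intro r x hx
        have := hL (φ.symm (r : R i ⧸ T i)) x hx
        rw [toE_apply, hcomp r _ (φ.apply_symm_apply _)] at this
        exact this
      · intro r x hx
        have := hL' (φ.symm (r : R i ⧸ T i)) x hx
        rw [toE_apply, hcomp r _ (φ.apply_symm_apply _)] at this
        exact this
    obtain ⟨a, ha, hcard⟩ := hTF p hp2 d P hPG ρ hinj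
    have haD : a ≤ D ^ 2 := ha.trans (Nat.pow_le_pow_left hdD 2)
    let ψ : Fin (Nat.card P) ≃ P := (Finite.equivFin P).symm
    refine ⟨⟨d, Nat.card P, ψ.group, fun g => ρ (ψ g), fun x y => f (ψ x) (ψ y)⟩,
      ⟨hdD, ?_⟩, ⟨a, haD, hcard⟩, ?_⟩
    · show Nat.card P ≤ _
      rw [hcard]
      exact Nat.pow_le_pow_right (Fact.out : p.Prime).pos haD
    · exact @Good.transfer p _ d P _ (R i) _ _ (Fin (Nat.card P)) ψ.group
        (@Equiv.mulEquiv _ _ ψ _) (fun g => ρ g) f ⟨ρ, fun g => rfl, hcoc, hreal⟩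
  choose X hX1 hX2 hX3 using key
  obtain ⟨i, j, hij, d, n, G, ρ, ρ', f, f', hi, hj, h1, h2⟩ := hN X hX1
  refine ⟨i, j, hij, ?_⟩
  have g1 := hX3 i
  have g2 := hX3 j
  have g3 := hX2 i
  rw [hi] at g1 g3
  rw [hj] at g2
  obtain ⟨a, ha, hna⟩ := g3
  refine @final p _ d (Fin n) G hMar hIso _ (2 * D ^ 2 + 1) a (by omega) ?_ (R i) (R j) _ _ _ _
    ρ ρ' f f' g1 g2 h1 h2
  rw [Nat.card_eq_fintype_card, Fintype.card_fin]
  exact hna

end Pool.Agent.W398.SG.Asm
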