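import Pool.Agent.W398.SG.StmC

/-!
# Project SG (MP_9a3597_al), part C: assembly of `S_TREE1` and `S_FIN -> S_RANK`
-/

namespace Pool.Agent.W398.SG.Rank

open Pool.Agent.W37.SG Pool.Agent.W398.SG.C

section
variable {p : ℕ} [Fact p.Prime] {d : ℕ} {P : Type} [Group P]

/-- forget invertibility -/
noncomputable def toAct (ρ : P →* ((Fin d → ℤ_[p]) ≃ₗ[ℤ_[p]] (Fin d → ℤ_[p]))) :
    Act p P (Fin d → ℤ_[p]) :=
  (LinearEquiv.automorphismGroup.toLinearMapMonoidHom (R := ℤ_[p])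
    (M := Fin d → ℤ_[p])).comp ρ

lemma toAct_apply (ρ : P →* ((Fin d → ℤ_[p]) ≃ₗ[ℤ_[p]] (Fin d → ℤ_[p]))) (g : P)
    (v : Fin d → ℤ_[p]) : toAct ρ g v = ρ g v := rfl

end

/-- `S_TREE1` -/
theorem tree1 (hT1 : S_T1) (hPerm : S_PERM) (hCoord : S_COORD) (hQQ : S_QQ) (hTau : S_TAU) :
    S_TREE1 := by
  intro p _ hp2 d P _ _ hPG hnt hd ρ hinj huni
  have huni' : Uni p (toAct ρ) := by
    intro L L' h1 h2 h3 h4
    exact huni L L' h1 h2 h3 h4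
  have hlat : IsLat p (Fin d → ℤ_[p]) := by
    refine ⟨inferInstance, ?_, ?_⟩
    · intro x hx
      funext i
      have h1 : (p : ℤ_[p]) * x i = 0 := congrFun hx i
      have h2 : (p : ℤ_[p]) ≠ 0 := by
        exact_mod_cast (Fact.out : p.Prime).ne_zero
      exact (mul_eq_zero.1 h1).resolve_left h2
    · refine ⟨fun _ => 1, fun h => ?_⟩
      have := congrFun h ⟨0, hd⟩
      simp at this
  have hmove : ∃ g x, toAct ρ g x ≠ x := by
    obtain ⟨g, hg⟩ := exists_ne (1 : P)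
    by_contra hcon
    push Not at hcon
    apply hg
    apply hinj
    rw [map_one]
    ext x : 1
    exact hcon g x
  obtain ⟨H, L, lam, m, h1, h2, h3, h4, h5, h6, h7, h8⟩ :=
    hT1 p hp2 P (Fin d → ℤ_[p]) (toAct ρ) hPG hlat huni' hmove
  have hpu : PUni p H := hPerm p P (Fin d → ℤ_[p]) (toAct ρ) huni' H L lam m h1 h2 h3 h4 h5 h6 h7
  obtain ⟨k, hk, e, he⟩ := hCoord p P hPG H
  obtain ⟨Φ, hΦ1, hΦ2⟩ := hQQ p P H k e he
  refine ⟨k, ?_, Φ.range, ?_, ?_, Φ.rangeRestrict, Φ.rangeRestrict_surjective⟩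
  · rw [Module.finrank_fin_fun, hk] at h8
    exact h8
  · rintro _ ⟨g, rfl⟩
    exact hΦ1 g
  · intro v hv
    obtain ⟨g, hg⟩ := hTau p P H k e he hpu Φ hΦ2 v hv
    exact ⟨Φ g, ⟨g, rfl⟩, hg⟩

/-- `S_FIN -> S_RANK` -/
theorem rank (hFin : S_FIN) (hTree : S_TREE1) (hQC : S_QC.{0, 0}) (hSub : S_SUBC.{0})
    (hTriv : S_TRIV) : S_RANK := by
  intro p _ hp2 s
  obtain ⟨K, hK⟩ := hFin p hp2 s
  refine ⟨max 1 ((p - 1) * p ^ K), ?_⟩
  intro d P _ _ hPG hcc ρ hinj huni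
  rcases subsingleton_or_nontrivial P with hs | hnt
  · exact (hTriv p d P hs ρ huni).trans (le_max_left _ _)
  rcases Nat.eq_zero_or_pos d with hd | hd
  · omega
  obtain ⟨k, hk, Q, hQ1, hQ2, φ, hφ⟩ := hTree p hp2 d P hPG hnt hd ρ hinj huni
  have hkK : k ≤ K := hK k Q hQ1 hQ2 ((hSub p s _ Q).2 (hQC p s P Q φ hPG hφ hcc))
  refine le_trans ?_ (le_max_right _ _)
  rw [hk]
  exact Nat.mul_le_mul_left _ (Nat.pow_le_pow_right (Fact.out : p.Prime).pos hkK)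

end Pool.Agent.W398.SG.Rank
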